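import Mathlib

set_option autoImplicit false

namespace Pool.Agent.Results.MP_29028a_co.Depends

open Polynomial

/-- the step polynomial -/
noncomputable def P (S : Finset (ℤ × ℤ)) (w : ℤ × ℤ → ℝ) (x y : ℂ) : ℂ :=
  ∑ s ∈ S, w s * x ^ s.1 * y ^ s.2

/-- a non-singular small-step set with positive weights -/
def Model (S : Finset (ℤ × ℤ)) (w : ℤ × ℤ → ℝ) : Prop :=
  (∀ s ∈ S, s ≠ 0 ∧ |s.1| ≤ 1 ∧ |s.2| ≤ 1 ∧ 0 < w s) ∧
    ∀ a b : ℝ, (a, b) ≠ 0 → (∃ s ∈ S, 0 < a * s.1 + b * s.2) ∧ ∃ s ∈ S, a * s.1 + b * s.2 < 0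

/-- `x^p y^q = a(x)/b(x) + c(y)/d(y)` on the kernel curve, wherever both sides are defined -/
def Decouples (S : Finset (ℤ × ℤ)) (w : ℤ × ℤ → ℝ) (p q : ℕ) (t : ℝ) : Prop :=
  ∃ a b c d : ℂ[X], b ≠ 0 ∧ d ≠ 0 ∧ ∀ x y : ℂ, x ≠ 0 → y ≠ 0 → 1 - t * P S w x y = 0 →
    b.eval x ≠ 0 → d.eval y ≠ 0 → x ^ p * y ^ q = a.eval x / b.eval x + c.eval y / d.eval y

def S₀ : Finset (ℤ × ℤ) := {(1, 1), (0, 1), (-1, 1), (1, 0), (1, -1), (-1, -1)}

noncomputable def w₀ (s : ℤ × ℤ) : ℝ :=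
  if s = (1, 1) then 3 else if s = (0, 1) then 19 else if s = (-1, 1) then 6 else
    if s = (1, 0) then 27 else if s = (1, -1) then 24 else 45

theorem P_eq {x y : ℂ} (hx : x ≠ 0) (hy : y ≠ 0) : P S₀ w₀ x y =
    (3 * x ^ 2 * y ^ 2 + 19 * x * y ^ 2 + 6 * y ^ 2 + 27 * x ^ 2 * y + 24 * x ^ 2 + 45) /
      (x * y) := by
  simp [P, S₀, w₀]
  field_simp
  ring

theorem two {a b c : ℝ} (ha : a ≠ 0) (h : 0 < b ^ 2 - 4 * a * c) :
    ∃ x x' : ℂ, x ≠ x' ∧ ∀ u ∈ [x, x'], a * u ^ 2 + b * u + c = 0 := by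
  have k := Real.sq_sqrt h.le
  have k' := (Real.sqrt_pos.mpr h).ne'
  generalize √_ = s at k k'
  refine ⟨((-b + s) / (2 * a) : ℝ), ((-b - s) / (2 * a) : ℝ), fun e => k' ?_, ?_⟩
  · have := Complex.ofReal_injective e
    field_simp at this
    linarith
  · simp only [List.forall_mem_cons, List.not_mem_nil, false_imp_iff, implies_true, and_true]
    constructor <;> norm_cast <;> field_simp <;> linarith

theorem result : ∃ (S : Finset (ℤ × ℤ)) (w : ℤ × ℤ → ℝ) (p q : ℕ) (t₁ t₂ : ℝ), Model S w ∧ 0 < p ∧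
    t₁ ∈ Set.Ioo 0 (1 / ∑ s ∈ S, w s) ∧ t₂ ∈ Set.Ioo 0 (1 / ∑ s ∈ S, w s) ∧
    Decouples S w p q t₁ ∧ ¬Decouples S w p q t₂ := by
  refine ⟨S₀, w₀, 1, 1, 1 / 134, 1 / 2565, ⟨by simp [S₀, w₀], fun a b h => ?_⟩, one_pos,
    by simp [S₀, w₀]; norm_num, by simp [S₀, w₀]; norm_num,
    ⟨(161 - 24 * X) * (3 * X + 1) - 143, 3 * (3 * X + 1), -6 * X * (X + 1) - 51, X + 1,
      fun h => by simpa using congrArg (eval 0) h, fun h => by simpa using congrArg (eval 0) h,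
      fun x y hx hy h h1 h2 => ?_⟩, ?_⟩
  · simp only [Ne, Prod.mk_eq_zero, not_and_or] at h
    simp only [S₀, Finset.mem_insert, Finset.mem_singleton, exists_eq_or_imp, exists_eq_left]
    push_cast
    constructor <;> by_contra k <;> push Not at k <;> rcases h with h | h <;> apply h <;> linarith
  · rw [P_eq hx hy] at h
    simp only [eval_add, eval_sub, eval_mul, eval_X, eval_ofNat, eval_one, eval_neg] at *
    have : 3 * x + 1 ≠ 0 := right_ne_zero_of_mul h1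
    push_cast at h
    field_simp at h ⊢
    linear_combination (-3 : ℂ) * h
  rintro ⟨a, b, c, d, hb, hd, h⟩
  obtain ⟨z, hz, k⟩ := (Set.Ioo_infinite (one_lt_two (α := ℝ))).exists_notMem_finite
    (((((X * b).roots.finite_toSet.image fun x => x * (95 - x) / (15 + 8 * x ^ 2)).union
      ((X * d).roots.finite_toSet.image fun y => -(15 + 2 * y ^ 2) / (y * (y - 135))))).preimage
      Complex.ofReal_injective.injOn)
  obtain ⟨x, x', hx, h1⟩ := two (a := 8 * z + 1) (b := -95) (c := 15 * z) (by linarith [hz.1])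
    (by nlinarith [hz.1, hz.2])
  obtain ⟨y, y', hy, h2⟩ := two (a := 2 + z) (b := -135 * z) (c := 15) (by linarith [hz.1])
    (by nlinarith [hz.1, hz.2])
  push_cast at h1 h2
  have k1 : ∀ u ∈ [x, x'], u ≠ 0 ∧ b.eval u ≠ 0 := fun u hu => by
    rw [← mul_ne_zero_iff]
    refine fun e => k (.inl ⟨u, by simpa [hb] using e, ?_⟩)
    have := h1 u hu
    refine (div_eq_iff fun e => ?_).mpr (by linear_combination -this)
    have : u = 0 ∨ u = 95 := by grind
    rcases this with rfl | rfl <;> norm_num at e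
  have k2 : ∀ u ∈ [y, y'], u ≠ 0 ∧ d.eval u ≠ 0 := fun u hu => by
    rw [← mul_ne_zero_iff]
    refine fun e => k (.inr ⟨u, by simpa [hd] using e, ?_⟩)
    have := h2 u hu
    refine (div_eq_iff fun e => ?_).mpr (by linear_combination -this)
    have e' : 15 + 2 * u ^ 2 = 0 := by linear_combination this - z * e
    have : u = 0 ∨ u = 135 := by grind
    rcases this with rfl | rfl <;> norm_num at e'
  have k3 : ∀ u ∈ [x, x'], ∀ v ∈ [y, y'], u ^ 1 * v ^ 1 = _ := fun u hu v hv =>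
    h u v (k1 u hu).1 (k2 v hv).1 (by
      rw [P_eq (k1 u hu).1 (k2 v hv).1]
      have := (k1 u hu).1
      have := (k2 v hv).1
      push_cast
      field_simp
      linear_combination (-(15 + 8 * u ^ 2) / 5) * h2 v hv + v * (v - 135) / 5 * h1 u hu)
      (k1 u hu).2 (k2 v hv).2
  refine mul_ne_zero (sub_ne_zero.mpr hx) (sub_ne_zero.mpr hy) ?_
  linear_combination k3 x (by simp) y (by simp) - k3 x' (by simp) y (by simp) -
    k3 x (by simp) y' (by simp) + k3 x' (by simp) y' (by simp)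

end Pool.Agent.Results.MP_29028a_co.Depends
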